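import Pool.Agent.V7H45.CY.Spec
import Pool.Agent.R939.EI.IsoH

/-!
# The 2-isogeny does not lower the rank (job I of the project CYC, helper45)
-/

set_option autoImplicit false
set_option linter.unusedSectionVars false

namespace Pool.Agent.V7H67.CY

open WeierstrassCurve Pool.Agent.TH115.GD Pool.Agent.R939.EI Pool.Agent.V7H45.CY

/-- A homomorphism with torsion kernel to a finitely generated group does not lower the rank. -/
theorem finrank_le_of_hom {A B : Type} [AddCommGroup A] [AddCommGroup B] [AddGroup.FG B]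
    (f : A →+ B) (m : ℤ) (hm : m ≠ 0) (hf : ∀ a, f a = 0 → m • a = 0) :
    Module.finrank ℤ A ≤ Module.finrank ℤ B := by
  have : Module.Finite ℤ B := Module.Finite.iff_addGroup_fg.2 inferInstance
  have h1 := LinearMap.rank_range_add_rank_ker f.toIntLinearMap
  have h2 : Module.rank ℤ (LinearMap.ker f.toIntLinearMap) = 0 := by
    rw [Module.rank_eq_zero_iff_isTorsion]
    intro x
    refine ⟨⟨m, mem_nonZeroDivisors_of_ne_zero hm⟩, Subtype.ext ?_⟩
    exact hf x.1 x.2
  rw [h2, add_zero] at h1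
  refine Cardinal.toNat_le_toNat ?_ (Module.rank_lt_aleph0 ℤ B)
  rw [← h1]
  exact Submodule.rank_le _

theorem iso2_gen (L : Type) [Field L] [Algebra ℚ L] [inst : DecidableEq L] (α β : ℚ)
    (h : Dat α β (-2 * α) (α ^ 2 - 4 * β) 1) :
    ∃ f : Pt (crvT α β) L →+ Pt (crvT (-2 * α) (α ^ 2 - 4 * β)) L,
      ∀ P, f P = 0 → P + P = 0 := by
  have h' : Dat (-2 * α) (α ^ 2 - 4 * β) α β 2 :=
    { hb := h.hb'
      hb' := h.hb
      hu := two_ne_zero
      e1 := by ring
      e2 := by ring }
  obtain rfl : inst = fun a b => Classical.propDecidable (a = b) := Subsingleton.elim _ _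
  refine ⟨isoH L h, fun P hP => ?_⟩
  have h1 := isoH_dbl L h h' (by norm_num) P
  rw [hP, map_zero] at h1
  exact h1.symm

theorem t_ISO2 : S_ISO2 := by
  intro α β hβ hd hfg
  have h : Dat α β (-2 * α) (α ^ 2 - 4 * β) 1 :=
    { hb := hβ
      hb' := hd
      hu := one_ne_zero
      e1 := by ring
      e2 := by ring }
  have e : ∀ a b : ℚ, W2 a b = (crvT a b).baseChange ℚ := fun a b => by
    apply WeierstrassCurve.ext <;> simp [W2, crvT, WeierstrassCurve.baseChange]
  obtain ⟨f, hf⟩ : ∃ f : (W2 α β).toAffine.Point →+ (W2 (-2 * α) (α ^ 2 - 4 * β)).toAffine.Point,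
      ∀ P, f P = 0 → P + P = 0 := by
    rw [e, e]
    exact iso2_gen ℚ α β h
  exact finrank_le_of_hom f 2 two_ne_zero fun P hP => by rw [two_zsmul]; exact hf P hP

end Pool.Agent.V7H67.CY
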